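import Pool.Agent.H5.TT.Main
import Pool.Agent.H5.TT.YNG
import Pool.Agent.H31.TT.DFI
import Pool.Agent.H11.TT.COU
import Pool.Agent.H55.TT.BDD
import Pool.Agent.H39.TT.INF
import Pool.Agent.H60.TT.SCA
import Pool.Agent.H61.TT.MON
import Pool.Agent.H66.TT.PER
import Pool.Agent.H17.TT.GCX
import Pool.Agent.H12.TT.CAL
import Pool.Agent.H9.TT.CAM

/-!
`MP_9cf0c9_mp`, Q1 (partial): pressure and compressibility of Thomas–Fermi molecules with any
number of electrons.  The function `l e(λ,l)` is a convex function of `l^(3/2)`; this gives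
`18 l³ κ⁻¹ ≥ e + 21 l³ P`, so that `κ⁻¹ ≥ 0` wherever `e(λ,l) ≥ 0`.
-/

set_option autoImplicit false

open MeasureTheory

namespace Pool.Agent.Results.MP_9cf0c9_mp.Compressibility

open H5.TT

theorem yng : S_YNG := H1.TT.t_YNG'
theorem dfi : S_DFI := H31.TT.t_DFI H1.TT.t_YNG'
theorem cou : S_COU := H11.TT.t_COU dfi
theorem bdd : S_BDD := H55.TT.t_BDD H1.TT.t_YNG'
theorem inf : S_INF := H39.TT.t_INF H60.TT.t_SCA bdd
theorem mon : S_MON := H61.TT.t_MON inf
theorem gcx : S_GCX := H17.TT.t_GCX inf H66.TT.t_PER cou yng dfi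


/-- **Pressure and compressibility where the energy is nonnegative.** -/
theorem result (k : ℕ) (z : Fin k → ℝ) (hz : ∀ j, 0 ≤ z j) (R : Fin k → R3)
    (hR : Function.Injective R) (lam : ℝ) (hlam : 0 ≤ lam) :
    (∀ l : ℝ, 0 < l → {x | ∃ ϱ, Adm lam ϱ ∧ x = tf z R l ϱ}.Nonempty ∧
      BddBelow {x | ∃ ϱ, Adm lam ϱ ∧ x = tf z R l ϱ}) ∧
    (∀ l : ℝ, 0 < l → DifferentiableAt ℝ (en z R lam) l →
      en z R lam l ≤ 3 * l ^ 3 * pres z R lam l) ∧
    (∀ l : ℝ, 0 < l → (∀ᶠ x in nhds l, DifferentiableAt ℝ (en z R lam) x) →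
      DifferentiableAt ℝ (deriv (en z R lam)) l →
      en z R lam l + 21 * l ^ 3 * pres z R lam l ≤ 18 * l ^ 3 * kapInv z R lam l) ∧
    (∀ l : ℝ, 0 < l → (∀ᶠ x in nhds l, DifferentiableAt ℝ (en z R lam) x) →
      DifferentiableAt ℝ (deriv (en z R lam)) l → 0 ≤ en z R lam l →
      0 ≤ pres z R lam l ∧ 0 ≤ kapInv z R lam l ∧
        8 * en z R lam l ≤ 18 * l ^ 3 * kapInv z R lam l) ∧
    ((∃ i j, i ≠ j ∧ 0 < z i ∧ 0 < z j) →
      ∃ l₀ : ℝ, 0 < l₀ ∧ ∀ l : ℝ, 0 < l → l < l₀ → 0 < en z R lam l) := by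
  have hmain := main_of gcx mon bdd inf H12.TT.t_CAL H9.TT.t_CAM k z R hz lam hlam
  refine ⟨fun l hl => set_ok bdd inf k z R hz lam hlam l hl, hmain.1, hmain.2, ?_,
    fun h => small_l bdd inf k z R hz hR lam hlam h⟩
  intro l hl hd hdd he
  have h1 := hmain.1 l hl hd.self_of_nhds
  have h2 := hmain.2 l hl hd hdd
  have hl3 : 0 < l ^ 3 := by positivity
  have h3 : 0 ≤ pres z R lam l := by
    by_contra hneg
    push Not at hneg
    have : 3 * l ^ 3 * pres z R lam l < 0 := mul_neg_of_pos_of_neg (by positivity) hneg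
    linarith
  have h4 : 8 * en z R lam l ≤ 18 * l ^ 3 * kapInv z R lam l := by nlinarith
  refine ⟨h3, ?_, h4⟩
  by_contra hneg
  push Not at hneg
  have : 18 * l ^ 3 * kapInv z R lam l < 0 := mul_neg_of_pos_of_neg (by positivity) hneg
  linarith

end Pool.Agent.Results.MP_9cf0c9_mp.Compressibility
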